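import Pool.Agent.Helper96.BT.Defs

/-!
# BT, K3 and K4: the segments of a run

General cut points `b : ℕ → ℕ`.
-/

set_option autoImplicit false

namespace Pool.Agent.Helper70.BT

open Finset Pool.Agent.Helper74.NW Pool.Agent.Helper96.BT

/-- The pieces of a side: the segments number `j ∈ A` of a computation which is cut at `b 0, b 1, …`. -/
def sideb {S J : ℕ} (A : Finset (Fin J)) (b : ℕ → ℕ) (σ : Fin (J + 1) → Fin S) : List (Fin S × ℕ × Fin S) :=
  ((List.finRange J).filter (fun j => j ∈ A)).map (fun j => (σ j.castSucc, b (j.val + 1) - b j.val, σ j.succ))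

/-- The part of a list which belongs to the segments number `j ∈ A`. -/
def partb {C : Type} {J : ℕ} (A : Finset (Fin J)) (b : ℕ → ℕ) (l : List C) : List C :=
  ((List.finRange J).filter (fun j => j ∈ A)).flatMap
    (fun j => (l.drop (b j.val)).take (b (j.val + 1) - b j.val))

section runs

variable {C X Z : Type} {S : ℕ} {P : NProg C X Z S} {I : C → X}

theorem run_append {s t u : Fin S} {l l' : List C} (h : P.Run I s l t) (h' : P.Run I t l' u) :
    P.Run I s (l ++ l') u := by
  induction h with
  | nil s => exact h'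
  | cons s s' t c next l hact hs _ ih => exact NProg.Run.cons s s' u c next _ hact hs (ih h')

/-- The states of a run. -/
theorem run_states {s t : Fin S} {l : List C} (h : P.Run I s l t) :
    ∃ f : ℕ → Fin S, f 0 = s ∧ f l.length = t ∧
      ∀ i j, i ≤ j → j ≤ l.length → P.Run I (f i) ((l.drop i).take (j - i)) (f j) := by
  induction h with
  | nil s =>
    refine ⟨fun _ => s, rfl, rfl, fun i j _ _ => ?_⟩
    simpa using NProg.Run.nil s
  | cons s s' t c next l hact hs hr ih =>
    obtain ⟨f, h0, h1, h2⟩ := ih
    refine ⟨fun i => if i = 0 then s else f (i - 1), by simp, by simpa using h1, fun i j hij hj => ?_⟩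
    rcases Nat.eq_zero_or_pos i with hi | hi
    · subst hi
      rcases Nat.eq_zero_or_pos j with hj0 | hj0
      · subst hj0
        simpa using NProg.Run.nil s
      · obtain ⟨j', rfl⟩ : ∃ j', j = j' + 1 := ⟨j - 1, by omega⟩
        have h3 := h2 0 j' (Nat.zero_le _) (by simpa using hj)
        rw [h0] at h3
        simpa using NProg.Run.cons s s' (f j') c next (l.take j') hact hs (by simpa using h3)
    · obtain ⟨i', rfl⟩ : ∃ i', i = i' + 1 := ⟨i - 1, by omega⟩
      obtain ⟨j', rfl⟩ : ∃ j', j = j' + 1 := ⟨j - 1, by omega⟩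
      have h3 := h2 i' j' (by omega) (by simpa using hj)
      simpa using h3

theorem runL_map {ι : Type} (js : List ι) (a a' : ι → Fin S) (k : ι → ℕ) (seg : ι → List C)
    (h : ∀ j ∈ js, P.Run I (a j) (seg j) (a' j) ∧ (seg j).length = k j) :
    RunL P I (js.map (fun j => (a j, k j, a' j))) (js.flatMap seg) := by
  induction js with
  | nil => exact RunL.nil
  | cons j js ih =>
    rw [List.map_cons, List.flatMap_cons]
    have h1 := h j List.mem_cons_self
    exact RunL.cons _ _ _ _ _ _ h1.1 h1.2 (ih fun i hi => h i (List.mem_cons_of_mem _ hi))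

theorem exists_of_runL_map {ι : Type} [DecidableEq ι] (js : List ι) (hjs : js.Nodup) (a a' : ι → Fin S)
    (k : ι → ℕ) {c : List C} (h : RunL P I (js.map (fun j => (a j, k j, a' j))) c) :
    ∃ seg : ι → List C, c = js.flatMap seg ∧
      ∀ j ∈ js, P.Run I (a j) (seg j) (a' j) ∧ (seg j).length = k j := by
  induction js generalizing c with
  | nil =>
    rw [List.map_nil] at h
    cases h
    exact ⟨fun _ => [], rfl, by simp⟩
  | cons j js ih =>
    rw [List.map_cons] at h
    rw [List.nodup_cons] at hjs
    cases h with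
    | cons _ _ _ _ c1 c2 h1 h2 h3 =>
      obtain ⟨seg, hc, hs⟩ := ih hjs.2 h3
      refine ⟨Function.update seg j c1, ?_, ?_⟩
      · rw [List.flatMap_cons, Function.update_self, hc]
        congr 1
        refine List.flatMap_congr fun i hi => ?_
        rw [Function.update_of_ne]
        rintro rfl
        exact hjs.1 hi
      · intro i hi
        rcases List.mem_cons.1 hi with rfl | hi'
        · rw [Function.update_self]
          exact ⟨h1, h2⟩
        · rw [Function.update_of_ne]
          · exact hs i hi'
          · rintro rfl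
            exact hjs.1 hi'

/-- The segments of a run, for arbitrary cut points. -/
theorem runL_sideb {s t : Fin S} {l : List C} (h : P.Run I s l t) {J : ℕ} {b : ℕ → ℕ}
    (hb : ∀ j < J, b j ≤ b (j + 1)) (h0 : b 0 = 0) (hJ : b J = l.length) :
    ∃ σ : Fin (J + 1) → Fin S, σ 0 = s ∧ σ (Fin.last J) = t ∧
      ∀ A : Finset (Fin J), RunL P I (sideb A b σ) (partb A b l) := by
  obtain ⟨f, f0, f1, f2⟩ := run_states h
  have hle : ∀ i j, i ≤ j → j ≤ J → b i ≤ b j := by
    intro i j hij
    induction j, hij using Nat.le_induction with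
    | base => intro _; exact le_rfl
    | succ j _ ih => intro hj; exact (ih (by omega)).trans (hb j (by omega))
  refine ⟨fun j => f (b j.val), by simp [h0, f0], by simp [hJ, f1], fun A => ?_⟩
  refine runL_map _ _ _ _ _ fun j _ => ⟨?_, ?_⟩
  · have h3 := hle (j.val + 1) J (by have := j.isLt; omega) le_rfl
    simpa using f2 (b j.val) (b (j.val + 1)) (hb _ j.isLt) (by omega)
  · have h3 := hle (j.val + 1) J (by have := j.isLt; omega) le_rfl
    have h4 := hb j.val j.isLt
    rw [List.length_take, List.length_drop]
    omega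

/-- The two sides together give a run, for arbitrary cut points. -/
theorem run_of_sidesb {J : ℕ} {b : ℕ → ℕ} (hb : ∀ j < J, b j ≤ b (j + 1)) (h0 : b 0 = 0)
    {σ : Fin (J + 1) → Fin S} {A : Finset (Fin J)} {c c' : List C}
    (h : RunL P I (sideb A b σ) c) (h' : RunL P I (sideb Aᶜ b σ) c') :
    ∃ l, P.Run I (σ 0) l (σ (Fin.last J)) ∧ l.length = b J ∧ c = partb A b l ∧ c' = partb Aᶜ b l := by
  classical
  obtain ⟨seg1, hc1, hs1⟩ := exists_of_runL_map _ ((List.nodup_finRange J).filter _) _ _ _ h
  obtain ⟨seg2, hc2, hs2⟩ := exists_of_runL_map _ ((List.nodup_finRange J).filter _) _ _ _ h'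
  set seg : ℕ → List C := fun i => if hi : i < J then
    (if (⟨i, hi⟩ : Fin J) ∈ A then seg1 ⟨i, hi⟩ else seg2 ⟨i, hi⟩) else [] with hseg
  set τ : ℕ → Fin S := fun i => if hi : i < J + 1 then σ ⟨i, hi⟩ else σ 0 with hτ
  have hrun : ∀ i < J, P.Run I (τ i) (seg i) (τ (i + 1)) ∧ (seg i).length = b (i + 1) - b i := by
    intro i hi
    have e1 : τ i = σ (⟨i, hi⟩ : Fin J).castSucc := by
      rw [hτ]
      simp only
      rw [dif_pos (by omega : i < J + 1)]
      rfl
    have e2 : τ (i + 1) = σ (⟨i, hi⟩ : Fin J).succ := by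
      rw [hτ]
      simp only
      rw [dif_pos (by omega : i + 1 < J + 1)]
      rfl
    by_cases hA : (⟨i, hi⟩ : Fin J) ∈ A
    · have e3 : seg i = seg1 ⟨i, hi⟩ := by
        rw [hseg]
        simp only
        rw [dif_pos hi, if_pos hA]
      rw [e1, e2, e3]
      exact hs1 ⟨i, hi⟩ (List.mem_filter.2 ⟨List.mem_finRange _, by simpa using hA⟩)
    · have e3 : seg i = seg2 ⟨i, hi⟩ := by
        rw [hseg]
        simp only
        rw [dif_pos hi, if_neg hA]
      rw [e1, e2, e3]
      exact hs2 ⟨i, hi⟩ (List.mem_filter.2 ⟨List.mem_finRange _, by simpa using hA⟩)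
  have hlen : ∀ i ≤ J, P.Run I (τ 0) ((List.range i).flatMap seg) (τ i) ∧
      ((List.range i).flatMap seg).length = b i := by
    intro i
    induction i with
    | zero =>
      intro _
      refine ⟨by simpa using NProg.Run.nil _, by simp [h0]⟩
    | succ i ih =>
      intro hi
      obtain ⟨r1, r2⟩ := ih (by omega)
      obtain ⟨r3, r4⟩ := hrun i (by omega)
      have h5 := hb i (by omega)
      rw [List.range_succ, List.flatMap_append, List.flatMap_singleton]
      refine ⟨run_append r1 r3, ?_⟩
      rw [List.length_append, r2, r4]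
      omega
  have hpre : ∀ i j, i ≤ j → ∃ r, (List.range j).flatMap seg = (List.range i).flatMap seg ++ r := by
    intro i j hij
    induction j, hij using Nat.le_induction with
    | base => exact ⟨[], by simp⟩
    | succ j _ ih =>
      obtain ⟨r, hr⟩ := ih
      refine ⟨r ++ seg j, ?_⟩
      rw [List.range_succ, List.flatMap_append, List.flatMap_singleton, hr, List.append_assoc]
  set l : List C := (List.range J).flatMap seg with hl
  have hcut : ∀ j : Fin J, (l.drop (b j.val)).take (b (j.val + 1) - b j.val) = seg j.val := by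
    intro j
    obtain ⟨r, hr⟩ := hpre (j.val + 1) J j.isLt
    rw [← hl, List.range_succ, List.flatMap_append, List.flatMap_singleton] at hr
    have h5 := (hlen j.val j.isLt.le).2
    have h6 := (hrun j.val j.isLt).2
    rw [hr, ← h5, List.append_assoc, List.drop_left, h5, ← h6, List.take_left]
  obtain ⟨r1, r2⟩ := hlen J le_rfl
  have e0 : τ 0 = σ 0 := by
    rw [hτ]
    simp
  have eJ : τ J = σ (Fin.last J) := by
    rw [hτ]
    simp only
    rw [dif_pos (by omega : J < J + 1)]
    rfl
  refine ⟨l, by rw [← e0, ← eJ]; exact r1, r2, ?_, ?_⟩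
  · rw [hc1]
    unfold partb
    refine List.flatMap_congr fun j hj => ?_
    have hA : j ∈ A := by simpa using (List.mem_filter.1 hj).2
    rw [hcut j, hseg]
    simp only
    rw [dif_pos j.isLt, if_pos hA]
  · rw [hc2]
    unfold partb
    refine List.flatMap_congr fun j hj => ?_
    have hA : j ∉ A := by simpa using (List.mem_filter.1 hj).2
    rw [hcut j, hseg]
    simp only
    rw [dif_pos j.isLt, if_neg hA]

end runs

end Pool.Agent.Helper70.BT
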