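import Pool.Agent.Helper99.BT.Defs
import Pool.Agent.Helper70.BT.Cut

/-!
# BT, K3 and K4 for the cut points of `Helper99.BT.Defs`
-/

set_option autoImplicit false

namespace Pool.Agent.Helper70.BT.Seg

open Finset Pool.Agent.Helper74.NW Pool.Agent.Helper96.BT Pool.Agent.Helper99.BT

section runs

variable {C X Z : Type} {S : ℕ} {P : NProg C X Z S} {I : C → X}

/-- K3: the segments of a run. -/
theorem runL_side {s t : Fin S} {l : List C} (h : P.Run I s l t) {J : ℕ} {b : ℕ → ℕ} (hb : Monotone b) (h0 : b 0 = 0)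
    (hl : b J = l.length) :
    ∃ σ : Fin (J + 1) → Fin S, σ 0 = s ∧ σ (Fin.last J) = t ∧
      ∀ A : Finset (Fin J), RunL P I (sideb A b σ) (partb A b l) :=
  Pool.Agent.Helper70.BT.runL_sideb h (fun j _ => hb (Nat.le_succ j)) h0 hl

/-- K4: the two sides together give a run. -/
theorem run_of_sides {J : ℕ} {b : ℕ → ℕ} (hb : Monotone b) (h0 : b 0 = 0) {σ : Fin (J + 1) → Fin S}
    {A : Finset (Fin J)} {c c' : List C} (h : RunL P I (sideb A b σ) c) (h' : RunL P I (sideb Aᶜ b σ) c') :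
    ∃ l, P.Run I (σ 0) l (σ (Fin.last J)) ∧ l.length = b J ∧ c = partb A b l ∧ c' = partb Aᶜ b l :=
  Pool.Agent.Helper70.BT.run_of_sidesb (fun j _ => hb (Nat.le_succ j)) h0 h h'

end runs

end Pool.Agent.Helper70.BT.Seg
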